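import Mathlib
import Pool.Agent.H299.AdmCompact3

set_option autoImplicit false

namespace Pool.Agent.Results.MP_dc1b93_an.DensePerturbations

open Pool.Agent.H299.AdmCompact

universe u

section
variable {X : Type u} [NormedAddCommGroup X] [NormedSpace ℂ X]

/-- `T` is hypercyclic: some orbit is dense -/
def Hypercyclic (T : X →L[ℂ] X) : Prop :=
  ∃ x : X, Dense (Set.range (fun n : ℕ => (T ^ n) x))

/-- `T` is cyclic: the linear span of some orbit is dense -/
def Cyclic (T : X →L[ℂ] X) : Prop :=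
  ∃ x : X, Dense ((Submodule.span ℂ (Set.range (fun n : ℕ => (T ^ n) x)) : Submodule ℂ X) : Set X)

end

/-- `T` is admissible: hypercyclic, with non-cyclic direct square, and spectrum `{1}` -/
def Admissible {X : Type u} [NormedAddCommGroup X] [NormedSpace ℂ X] (T : X →L[ℂ] X) : Prop :=
  Hypercyclic T ∧ ¬ Cyclic (T.prodMap T) ∧ spectrum ℂ T = {1}

/-- nilpotent operators on `X` of rank at most `n` -/
def NilRank (X : Type u) [NormedAddCommGroup X] [NormedSpace ℂ X] (n : ℕ) : Set (X →L[ℂ] X) :=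
  {F | IsNilpotent F ∧ FiniteDimensional ℂ (LinearMap.range F.toLinearMap) ∧
    Module.finrank ℂ (LinearMap.range F.toLinearMap) ≤ n}

/-- the norm closure of the set of all nilpotent operators of finite rank -/
def LimNil (X : Type u) [NormedAddCommGroup X] [NormedSpace ℂ X] : Set (X →L[ℂ] X) :=
  closure (⋃ n, NilRank X n)

theorem compact_of_finite {X : Type u} [NormedAddCommGroup X] [NormedSpace ℂ X] {F : X →L[ℂ] X}
    (h : FiniteDimensional ℂ (LinearMap.range F.toLinearMap)) : IsCompactOperator F := by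
  have h1 : IsCompactOperator (id : LinearMap.range F.toLinearMap → LinearMap.range F.toLinearMap) :=
    (isCompactOperator_id_iff_finiteDimensional (𝕜 := ℂ)).2 h
  have h2 := (h1.comp_clm (F.codRestrict (LinearMap.range F.toLinearMap) fun x => ⟨x, rfl⟩)).clm_comp
    (LinearMap.range F.toLinearMap).subtypeL
  exact h2

theorem compact_of_lim {X : Type u} [NormedAddCommGroup X] [NormedSpace ℂ X] [CompleteSpace X]
    {A : X →L[ℂ] X} (hA : A ∈ LimNil X) : IsCompactOperator A := by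
  have h1 : IsClosed {f : X →L[ℂ] X | IsCompactOperator f} := isClosed_setOf_isCompactOperator
  refine h1.closure_subset_iff.2 ?_ hA
  intro F hF
  obtain ⟨n, hn⟩ := Set.mem_iUnion.1 hF
  exact compact_of_finite hn.2.1

/-- **Admissible operators with prescribed data.** Let `X` be a separable infinite-dimensional
complex Banach space.

(1) Let `F` be a nilpotent operator on `X` of rank at most `r`, let `x₀ ≠ 0` be a vector and let
`δ` be any sequence of positive numbers. There is an operator `A` on `X` with `‖A - F‖ ≤ δ 0` such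
that for every `n ≥ 2 r` some nilpotent operator `B` of rank at most `n` has `‖A - B‖ ≤ δ n`, such
that `1 + A` is admissible, and such that the orbit of `x₀` under `1 + A` is dense; moreover some
nonzero continuous symmetric bilinear form `b` has `b (A u) v = b u (A v)`.

(2) The operators `A` in the norm closure `𝒩` of the finite-rank nilpotents for which `1 + A` is
admissible are compact and are norm dense in `𝒩`.

(3) For every `ε > 0` there is a compact `A` with `‖A‖ ≤ ε` and `1 + A` admissible. -/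
theorem result (X : Type u) [NormedAddCommGroup X] [NormedSpace ℂ X] [CompleteSpace X]
    [TopologicalSpace.SeparableSpace X] (hX : ¬ FiniteDimensional ℂ X) :
    (∀ (r : ℕ) (F : X →L[ℂ] X), F ∈ NilRank X r → ∀ x₀ : X, x₀ ≠ 0 →
      ∀ δ : ℕ → ℝ, (∀ n, 0 < δ n) →
      ∃ A : X →L[ℂ] X, ‖A - F‖ ≤ δ 0 ∧ (∀ n, 2 * r ≤ n → ∃ B ∈ NilRank X n, ‖A - B‖ ≤ δ n) ∧
        Admissible (1 + A) ∧ Dense (Set.range (fun n : ℕ => ((1 + A) ^ n) x₀)) ∧
        ∃ b : X →L[ℂ] X →L[ℂ] ℂ, b ≠ 0 ∧ (∀ u v, b u v = b v u) ∧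
          ∀ u v, b (A u) v = b u (A v)) ∧
    (LimNil X = closure {A | A ∈ LimNil X ∧ IsCompactOperator A ∧ Admissible (1 + A)}) ∧
    (∀ ε : ℝ, 0 < ε → ∃ A : X →L[ℂ] X, IsCompactOperator A ∧ ‖A‖ ≤ ε ∧ Admissible (1 + A)) := by
  have hnt : Nontrivial X := by
    by_contra h
    rw [not_nontrivial_iff_subsingleton] at h
    exact hX inferInstance
  obtain ⟨y0, hy0⟩ := exists_ne (0 : X)
  have main : ∀ (r : ℕ) (F : X →L[ℂ] X), F ∈ NilRank X r → ∀ x₀ : X, x₀ ≠ 0 →
      ∀ δ : ℕ → ℝ, (∀ n, 0 < δ n) →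
      ∃ A : X →L[ℂ] X, ‖A - F‖ ≤ δ 0 ∧ (∀ n, 2 * r ≤ n → ∃ B ∈ NilRank X n, ‖A - B‖ ≤ δ n) ∧
        Admissible (1 + A) ∧ Dense (Set.range (fun n : ℕ => ((1 + A) ^ n) x₀)) ∧
        ∃ b : X →L[ℂ] X →L[ℂ] ℂ, b ≠ 0 ∧ (∀ u v, b u v = b v u) ∧
          ∀ u v, b (A u) v = b u (A v) := by
    intro r F hF x₀ hx₀ δ hδ
    obtain ⟨A, h0, h1, h2, ⟨b, hb1, hb2, hb3⟩, h4⟩ := near_vec X hX hF δ hδ hx₀
    refine ⟨A, h0, h1, ⟨⟨x₀, h2⟩, ?_, h4⟩, h2, b, hb3, hb1, hb2⟩
    refine Pool.Agent.H154R5.BQ.t9 X (1 + A) b hb1 (fun u v => ?_) hb3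
    simp only [add_apply, one_apply_eq_self, map_add, hb2]
  have dens : ∀ (F : X →L[ℂ] X), F ∈ LimNil X → ∀ ε : ℝ, 0 < ε →
      ∃ A ∈ LimNil X, ‖A - F‖ < ε ∧ IsCompactOperator A ∧ Admissible (1 + A) := by
    intro F hF ε hε
    obtain ⟨F1, hF1, hd⟩ := Metric.mem_closure_iff.1 hF (ε / 2) (by positivity)
    obtain ⟨r, hr⟩ := Set.mem_iUnion.1 hF1
    obtain ⟨A, h0, h1, h2, -⟩ := main r F1 hr y0 hy0
      (fun n => ε / 4 * (1 / 2) ^ n) (fun n => by positivity)
    have hA : A ∈ LimNil X := by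
      rw [LimNil, Metric.mem_closure_iff]
      intro η hη
      obtain ⟨n, hn⟩ : ∃ n : ℕ, (1 / 2 : ℝ) ^ n < η / (ε + 1) :=
        exists_pow_lt_of_lt_one (by positivity) (by norm_num)
      obtain ⟨B, hB, hAB⟩ := h1 (n + 2 * r) (by omega)
      refine ⟨B, Set.mem_iUnion.2 ⟨_, hB⟩, ?_⟩
      rw [dist_eq_norm]
      refine hAB.trans_lt ?_
      have h5 : (1 / 2 : ℝ) ^ (n + 2 * r) ≤ (1 / 2) ^ n :=
        pow_le_pow_of_le_one (by norm_num) (by norm_num) (by omega)
      calc ε / 4 * (1 / 2 : ℝ) ^ (n + 2 * r) ≤ (ε + 1) * (1 / 2) ^ n :=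
            mul_le_mul (by linarith) h5 (by positivity) (by positivity)
        _ < (ε + 1) * (η / (ε + 1)) := by gcongr
        _ = η := by field_simp
    refine ⟨A, hA, ?_, compact_of_lim hA, h2⟩
    have h6 : A - F = (A - F1) + (F1 - F) := by abel
    rw [dist_comm, dist_eq_norm] at hd
    rw [h6]
    refine (norm_add_le _ _).trans_lt ?_
    have h7 : ‖A - F1‖ ≤ ε / 4 * (1 / 2) ^ 0 := h0
    rw [pow_zero, mul_one] at h7
    linarith
  have hzero : (0 : X →L[ℂ] X) ∈ LimNil X := by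
    refine subset_closure (Set.mem_iUnion.2 ⟨0, IsNilpotent.zero, ?_, ?_⟩)
    · have : LinearMap.range (0 : X →L[ℂ] X).toLinearMap = ⊥ := LinearMap.range_zero
      rw [this]
      infer_instance
    · have : LinearMap.range (0 : X →L[ℂ] X).toLinearMap = ⊥ := LinearMap.range_zero
      rw [this, finrank_bot]
  refine ⟨main, ?_, ?_⟩
  · apply Set.Subset.antisymm
    · intro F hF
      rw [Metric.mem_closure_iff]
      intro ε hε
      obtain ⟨A, hA, hAF, hAc, hAa⟩ := dens F hF ε hε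
      exact ⟨A, ⟨hA, hAc, hAa⟩, by rw [dist_comm, dist_eq_norm]; exact hAF⟩
    · exact closure_minimal (fun A hA => hA.1) isClosed_closure
  · intro ε hε
    obtain ⟨A, -, hA, hAc, hAa⟩ := dens 0 hzero ε hε
    rw [sub_zero] at hA
    exact ⟨A, hAc, hA.le, hAa⟩

end Pool.Agent.Results.MP_dc1b93_an.DensePerturbations
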